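import Mathlib

/-!
Every separable infinite-dimensional normed space has a biorthogonal sequence with dense span.
-/

open Filter Topology Submodule

namespace Pool.Agent.P.MP_1b62a1_an

variable {𝕜 : Type*} [RCLike 𝕜] {Y : Type*} [NormedAddCommGroup Y] [NormedSpace 𝕜 Y]

theorem exists_li_dense [TopologicalSpace.SeparableSpace Y] (h : ¬ FiniteDimensional 𝕜 Y) :
    ∃ v : ℕ → Y, LinearIndependent 𝕜 v ∧ Dense (span 𝕜 (Set.range v) : Set Y) := by
  obtain ⟨s, hs, hd⟩ := TopologicalSpace.exists_countable_dense Y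
  obtain ⟨b, hb, hsp, hli⟩ := exists_linearIndependent 𝕜 s
  have hdb : Dense (span 𝕜 b : Set Y) := by
    rw [hsp]; exact hd.mono subset_span
  have hinf : b.Infinite := by
    intro hfin
    apply h
    have : FiniteDimensional 𝕜 (span 𝕜 b) := FiniteDimensional.span_of_finite 𝕜 hfin
    have hc := (span 𝕜 b).closed_of_finiteDimensional
    have htop : span 𝕜 b = ⊤ := by
      rw [← SetLike.coe_set_eq, ← hc.closure_eq, hdb.closure_eq]; rfl
    rw [htop] at this
    exact Module.Finite.equiv (Submodule.topEquiv (R := 𝕜) (M := Y))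
  have : Infinite b := hinf.to_subtype
  have : Countable b := (hs.mono hb).to_subtype
  obtain ⟨φ⟩ : Nonempty (ℕ ≃ b) := nonempty_equiv_of_countable
  refine ⟨fun n => (φ n : Y), hli.comp φ φ.injective, ?_⟩
  have : Set.range (fun n => (φ n : Y)) = b := by
    ext y
    constructor
    · rintro ⟨n, rfl⟩; exact (φ n).2
    · intro hy; exact ⟨φ.symm ⟨y, hy⟩, by simp⟩
  rwa [this]

theorem exists_functional (V : Submodule 𝕜 Y) [FiniteDimensional 𝕜 V] {y : Y} (hy : y ∉ V) :
    ∃ g : Y →L[𝕜] 𝕜, g y = 1 ∧ ∀ x ∈ V, g x = 0 := by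
  have hc : IsClosed (V : Set Y) := V.closed_of_finiteDimensional
  have hne : V.mkQL y ≠ 0 := by
    simpa [Submodule.mkQL_apply] using hy
  obtain ⟨φ, -, hφ⟩ := exists_dual_vector 𝕜 (V.mkQL y) (norm_ne_zero_iff.2 hne)
  have h2 : ((‖V.mkQL y‖ : ℝ) : 𝕜) ≠ 0 := by
    simpa using hne
  refine ⟨((‖V.mkQL y‖ : ℝ) : 𝕜)⁻¹ • φ.comp V.mkQL, ?_, fun x hx => ?_⟩
  · simp only [smul_apply, ContinuousLinearMap.comp_apply, hφ, smul_eq_mul]
    exact inv_mul_cancel₀ h2
  · have : V.mkQL x = 0 := by simpa [Submodule.mkQL_apply] using hx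
    simp [this]

/-- Biorthogonalisation. -/
noncomputable def bio (v : ℕ → Y) (g : ℕ → Y →L[𝕜] 𝕜) (n : ℕ) : Y :=
  v n - ∑ i : Fin n, g i (v n) • bio v g i
termination_by n
decreasing_by exact i.2

theorem bio_eq (v : ℕ → Y) (g : ℕ → Y →L[𝕜] 𝕜) (n : ℕ) :
    bio v g n = v n - ∑ i ∈ Finset.range n, g i (v n) • bio v g i := by
  rw [bio, Fin.sum_univ_eq_sum_range (fun i => g i (v n) • bio v g i)]

theorem bio_mem (v : ℕ → Y) (g : ℕ → Y →L[𝕜] 𝕜) (n : ℕ) :
    ∀ k, n < k → bio v g n ∈ span 𝕜 (v '' Set.Iio k) := by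
  induction n using Nat.strong_induction_on with
  | _ n ih =>
    intro k hk
    rw [bio_eq]
    refine sub_mem (subset_span ⟨n, hk, rfl⟩) (sum_mem fun i hi => smul_mem _ _ ?_)
    have := Finset.mem_range.1 hi
    exact ih i this k (this.trans hk)

theorem exists_biorth [TopologicalSpace.SeparableSpace Y] (h : ¬ FiniteDimensional 𝕜 Y) :
    ∃ (e : ℕ → Y) (f : ℕ → Y →L[𝕜] 𝕜), (∀ i j, f i (e j) = if i = j then 1 else 0) ∧
      Dense (span 𝕜 (Set.range e) : Set Y) := by
  obtain ⟨v, hli, hd⟩ := exists_li_dense h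
  have hg : ∀ n, ∃ g : Y →L[𝕜] 𝕜, g (v n) = 1 ∧ ∀ x ∈ span 𝕜 (v '' Set.Iio n), g x = 0 := by
    intro n
    have : FiniteDimensional 𝕜 (span 𝕜 (v '' Set.Iio n)) :=
      FiniteDimensional.span_of_finite 𝕜 ((Set.finite_Iio n).image v)
    exact exists_functional _ (hli.notMem_span_image (by simp))
  choose g hg1 hg2 using hg
  have hlt : ∀ i j, j < i → g i (bio v g j) = 0 := fun i j hij => hg2 i _ (bio_mem v g j i hij)
  refine ⟨bio v g, g, fun i j => ?_, hd.mono (span_le.2 ?_)⟩
  · induction j using Nat.strong_induction_on generalizing i with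
    | _ j ih =>
      rcases lt_trichotomy j i with hij | rfl | hij
      · rw [hlt i j hij, if_neg hij.ne']
      · rw [bio_eq, map_sub, map_sum, Finset.sum_eq_zero, hg1, sub_zero, if_pos rfl]
        intro k hk
        rw [map_smul, hlt j k (Finset.mem_range.1 hk), smul_zero]
      · rw [bio_eq, map_sub, map_sum, if_neg hij.ne, Finset.sum_eq_single i]
        · rw [map_smul, ih i hij, if_pos rfl, smul_eq_mul, mul_one, sub_self]
        · intro k hk hki
          rw [map_smul, ih k (Finset.mem_range.1 hk), if_neg (Ne.symm hki), smul_zero]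
        · intro hi
          exact absurd (Finset.mem_range.2 hij) hi
  · rintro _ ⟨n, rfl⟩
    have : v n = bio v g n + ∑ i ∈ Finset.range n, g i (v n) • bio v g i := by
      rw [bio_eq v g n]; abel
    rw [this]
    exact add_mem (subset_span ⟨n, rfl⟩) (sum_mem fun i _ => smul_mem _ _ (subset_span ⟨i, rfl⟩))

end Pool.Agent.P.MP_1b62a1_an
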