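import Mathlib

/-!
The finite-dimensional Jordan block lemma in coordinates.
-/

open Filter Topology Polynomial Matrix

namespace Pool.Agent.P.MP_1b62a1_an

variable {𝕜 : Type*} [RCLike 𝕜]

/-- The coefficient of the `i`-th basis vector in the `n`-th power of identity plus shift applied
to the `m`-th basis vector. -/
noncomputable def cc (𝕜 : Type*) [RCLike 𝕜] (n m i : ℕ) : 𝕜 :=
  if i ≤ m then (n.choose (m - i) : 𝕜) else 0

theorem det_ne_zero (N : ℕ) :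
    (Matrix.of fun i j : Fin N => ((Nat.factorial (N + j - i) : 𝕜))⁻¹).det ≠ 0 := by
  intro h
  obtain ⟨c, hc, hM⟩ := Matrix.exists_mulVec_eq_zero_iff.2 h
  obtain ⟨j0, hj0⟩ := Function.ne_iff.1 hc
  have hN : 0 < N := Fin.pos j0
  set r : 𝕜[X] := ∑ j : Fin N, C (c j * ((Nat.factorial (N + j) : 𝕜))⁻¹) * X ^ (j : ℕ) with hr
  have hr0 : r ≠ 0 := by
    intro h0
    have := congrArg (fun p => coeff p j0) h0
    simp only [hr, finsetSum_coeff, coeff_C_mul, coeff_X_pow, coeff_zero] at this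
    rw [Finset.sum_eq_single j0] at this
    · simp only [if_true, mul_one, mul_eq_zero, inv_eq_zero, Nat.cast_eq_zero] at this
      rcases this with h1 | h1
      · exact hj0 h1
      · exact Nat.factorial_ne_zero _ h1
    · intro b _ hb
      rw [if_neg (fun h => hb (Fin.ext h.symm)), mul_zero]
    · simp
  have hdeg : r.natDegree < N := by
    have : r.natDegree ≤ N - 1 := by
      refine natDegree_sum_le_of_forall_le _ _ fun j _ => ?_
      refine (natDegree_C_mul_X_pow_le _ _).trans ?_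
      have := j.2; omega
    omega
  have hq0 : X ^ N * r ≠ 0 := mul_ne_zero (pow_ne_zero _ X_ne_zero) hr0
  have hq : X ^ N * r = ∑ j : Fin N, C (c j * ((Nat.factorial (N + j) : 𝕜))⁻¹) * X ^ (N + j) := by
    rw [hr, Finset.mul_sum]
    refine Finset.sum_congr rfl fun j _ => ?_
    ring
  have hroot : N - 1 < (X ^ N * r).rootMultiplicity 1 := by
    refine lt_rootMultiplicity_of_isRoot_iterate_derivative hq0 fun m hm => ?_
    have := congrFun hM ⟨m, by omega⟩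
    simp only [mulVec, dotProduct, of_apply, Pi.zero_apply] at this
    rw [IsRoot, hq, iterate_derivative_sum, eval_finsetSum, ← this]
    refine Finset.sum_congr rfl fun j _ => ?_
    rw [iterate_derivative_C_mul, iterate_derivative_X_pow_eq_C_mul]
    simp only [eval_mul, eval_C, eval_pow, eval_X, one_pow, mul_one]
    have h1 : (N + j - m).factorial * (N + j).descFactorial m = (N + j).factorial :=
      Nat.factorial_mul_descFactorial (by omega)
    have h2 : ((N + j - m).factorial : 𝕜) ≠ 0 := Nat.cast_ne_zero.2 (Nat.factorial_ne_zero _)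
    have h3 : ((N + j).factorial : 𝕜) ≠ 0 := Nat.cast_ne_zero.2 (Nat.factorial_ne_zero _)
    have h4 : ((N + j - m).factorial : 𝕜) * ((N + j).descFactorial m : 𝕜) = (N + j).factorial := by
      exact_mod_cast h1
    field_simp
    linear_combination c j * h4
  have hdvd : (X - C 1) ^ N ∣ X ^ N * r := (le_rootMultiplicity_iff hq0).1 (by omega)
  have hcop : IsCoprime ((X - C 1 : 𝕜[X]) ^ N) (X ^ N) := by
    refine IsCoprime.pow ⟨-1, 1, ?_⟩
    simp
  have h2 := natDegree_le_of_dvd (hcop.dvd_of_dvd_mul_left hdvd) hr0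
  rw [natDegree_pow, natDegree_X_sub_C] at h2
  omega

theorem tendsto_choose_div (k : ℕ) :
    Tendsto (fun n : ℕ => (n.choose k : 𝕜) * ((n : 𝕜)⁻¹) ^ k) atTop
      (𝓝 ((k.factorial : 𝕜))⁻¹) := by
  have h1 : Tendsto (fun n : ℕ => (n.choose k : ℝ) * ((n : ℝ)⁻¹) ^ k) atTop
      (𝓝 ((k.factorial : ℝ))⁻¹) := by
    have := (isEquivalent_choose k).mul
      (Asymptotics.IsEquivalent.refl (u := fun n : ℕ => ((n : ℝ)⁻¹) ^ k) (l := atTop))
    refine this.symm.tendsto_nhds ?_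
    refine tendsto_const_nhds.congr' ?_
    filter_upwards [eventually_gt_atTop 0] with n hn
    have : (n : ℝ) ≠ 0 := by positivity
    simp only [Pi.mul_apply]
    rw [div_mul_eq_mul_div, ← mul_pow, mul_inv_cancel₀ this, one_pow, one_div]
  have h2 := (RCLike.continuous_ofReal (K := 𝕜)).continuousAt.tendsto.comp h1
  simpa [Function.comp_def] using h2

theorem tendsto_inv_nat : Tendsto (fun n : ℕ => ((n : 𝕜))⁻¹) atTop (𝓝 0) := by
  have h2 := (RCLike.continuous_ofReal (K := 𝕜)).continuousAt.tendsto.comp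
    (tendsto_inv_atTop_nhds_zero_nat (𝕜 := ℝ))
  simpa [Function.comp_def] using h2

theorem tendsto_cc (j i : ℕ) :
    ∃ L : 𝕜, Tendsto (fun n : ℕ => cc 𝕜 n j i * ((n : 𝕜)⁻¹) ^ (j - i)) atTop (𝓝 L) := by
  unfold cc
  split_ifs
  · exact ⟨_, tendsto_choose_div _⟩
  · exact ⟨0, by simp⟩

theorem jordan (N : ℕ) (υ η : Fin N → 𝕜) {ε : ℝ} (hε : 0 < ε) :
    ∀ᶠ n : ℕ in atTop, ∃ ζ : Fin N → 𝕜,
      (∀ i : Fin N, ∑ j : Fin N, cc 𝕜 n (N + j) i * ζ j + ∑ j : Fin N, cc 𝕜 n j i * υ j = η i) ∧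
      (∀ j, ‖ζ j‖ < ε) ∧ ∀ i : Fin N, ‖∑ j : Fin N, cc 𝕜 n j i * ζ j‖ < ε := by
  set M : Matrix (Fin N) (Fin N) 𝕜 :=
    Matrix.of fun i j : Fin N => ((Nat.factorial (N + j - i) : 𝕜))⁻¹ with hM
  have hdet : M.det ≠ 0 := det_ne_zero N
  let Bn : ℕ → Matrix (Fin N) (Fin N) 𝕜 := fun n =>
    Matrix.of fun i j : Fin N => (n.choose (N + j - i) : 𝕜) * ((n : 𝕜)⁻¹) ^ (N + j - i)
  have hB : Tendsto Bn atTop (𝓝 M) := by
    exact tendsto_pi_nhds.2 fun i => tendsto_pi_nhds.2 fun j => tendsto_choose_div _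
  have hBinv : Tendsto (fun n => (Bn n)⁻¹) atTop (𝓝 M⁻¹) := by
    refine (continuousAt_matrix_inv M ?_).tendsto.comp hB
    have : (Ring.inverse : 𝕜 → 𝕜) = Inv.inv := Ring.inverse_eq_inv'
    rw [this]
    exact continuousAt_inv₀ hdet
  have hBdet : ∀ᶠ n in atTop, (Bn n).det ≠ 0 :=
    ((continuous_id.matrix_det.tendsto M).comp hB).eventually_ne hdet
  choose L hL using tendsto_cc (𝕜 := 𝕜)
  let β : ℕ → Fin N → 𝕜 := fun n i => η i * ((n : 𝕜)⁻¹) ^ (N - 1 - i) -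
    ∑ j : Fin N, (cc 𝕜 n j i * ((n : 𝕜)⁻¹) ^ ((j : ℕ) - i)) * υ j * ((n : 𝕜)⁻¹) ^ (N - 1 - j)
  have hβ : Tendsto β atTop (𝓝 fun i => η i * (0 : 𝕜) ^ (N - 1 - i) -
      ∑ j : Fin N, L j i * υ j * (0 : 𝕜) ^ (N - 1 - j)) := by
    rw [tendsto_pi_nhds]; intro i
    refine (tendsto_const_nhds.mul (tendsto_inv_nat.pow _)).sub
      (tendsto_finsetSum _ fun j _ => ((hL j i).mul tendsto_const_nhds).mul (tendsto_inv_nat.pow _))
  obtain ⟨β0, hβ0⟩ : ∃ β0, Tendsto β atTop (𝓝 β0) := ⟨_, hβ⟩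
  let ξ : ℕ → Fin N → 𝕜 := fun n => (Bn n)⁻¹ *ᵥ β n
  have hξ : Tendsto ξ atTop (𝓝 (M⁻¹ *ᵥ β0)) := by
    have hc : Continuous fun p : Matrix (Fin N) (Fin N) 𝕜 × (Fin N → 𝕜) => p.1 *ᵥ p.2 :=
      continuous_fst.matrix_mulVec continuous_snd
    exact (hc.tendsto (M⁻¹, β0)).comp (hBinv.prodMk_nhds hβ0)
  have hξj : ∀ j, Tendsto (fun n => ξ n j) atTop (𝓝 ((M⁻¹ *ᵥ β0) j)) := tendsto_pi_nhds.1 hξ
  have h1 : ∀ j : Fin N, Tendsto (fun n => ξ n j * ((n : 𝕜)⁻¹) ^ ((j : ℕ) + 1)) atTop (𝓝 0) := by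
    intro j
    simpa using (hξj j).mul (tendsto_inv_nat.pow ((j : ℕ) + 1))
  have h2 : ∀ i : Fin N, Tendsto (fun n => (∑ j : Fin N,
      (cc 𝕜 n j i * ((n : 𝕜)⁻¹) ^ ((j : ℕ) - i)) * ξ n j) * ((n : 𝕜)⁻¹) ^ ((i : ℕ) + 1))
      atTop (𝓝 0) := by
    intro i
    simpa using (tendsto_finsetSum Finset.univ fun (j : Fin N) _ => (hL j i).mul (hξj j)).mul
      (tendsto_inv_nat.pow ((i : ℕ) + 1))
  have h1' : ∀ᶠ n : ℕ in atTop, ∀ j : Fin N, ‖ξ n j * ((n : 𝕜)⁻¹) ^ ((j : ℕ) + 1)‖ < ε := by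
    rw [eventually_all]; intro j
    exact (tendsto_zero_iff_norm_tendsto_zero.1 (h1 j)).eventually_lt_const hε
  have h2' : ∀ᶠ n : ℕ in atTop, ∀ i : Fin N, ‖(∑ j : Fin N,
      (cc 𝕜 n j i * ((n : 𝕜)⁻¹) ^ ((j : ℕ) - i)) * ξ n j) * ((n : 𝕜)⁻¹) ^ ((i : ℕ) + 1)‖ < ε := by
    rw [eventually_all]; intro j
    exact (tendsto_zero_iff_norm_tendsto_zero.1 (h2 j)).eventually_lt_const hε
  filter_upwards [hBdet, h1', h2', eventually_gt_atTop 0] with n hn1 hn2 hn3 hn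
  have hn0 : (n : 𝕜) ≠ 0 := Nat.cast_ne_zero.2 hn.ne'
  set s : 𝕜 := (n : 𝕜)⁻¹ with hs
  have hs0 : s ≠ 0 := inv_ne_zero hn0
  refine ⟨fun j => ξ n j * s ^ ((j : ℕ) + 1), fun i => ?_, hn2, fun i => ?_⟩
  · have hBξ : Bn n *ᵥ ξ n = β n := by
      simp only [ξ]
      rw [mulVec_mulVec, Matrix.mul_nonsing_inv _ (isUnit_iff_ne_zero.2 hn1), one_mulVec]
    have h3 := congrFun hBξ i
    simp only [mulVec, dotProduct, Bn, of_apply, β] at h3
    rw [← hs] at h3
    have hi := i.2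
    apply mul_right_cancel₀ (pow_ne_zero (N - 1 - i) hs0)
    rw [add_mul, Finset.sum_mul, Finset.sum_mul, ← eq_sub_iff_add_eq]
    refine Eq.trans ?_ (h3.trans ?_)
    · refine Finset.sum_congr rfl fun j _ => ?_
      rw [cc, if_pos (by omega), show N + j - i = (j + 1) + (N - 1 - i) by omega, pow_add s (j + 1)]
      ring
    · congr 1
      refine Finset.sum_congr rfl fun j _ => ?_
      have hj := j.2
      unfold cc
      split_ifs with h
      · rw [show N - 1 - i = (j - i) + (N - 1 - j) by omega, pow_add]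
        ring
      · simp
  · refine lt_of_eq_of_lt ?_ (hn3 i)
    congr 1
    rw [Finset.sum_mul]
    refine Finset.sum_congr rfl fun j _ => ?_
    unfold cc
    split_ifs with h
    · beta_reduce
      rw [show (j : ℕ) + 1 = (j - i) + (i + 1) by omega, pow_add s (j - i)]
      ring
    · simp

end Pool.Agent.P.MP_1b62a1_an
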