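import Pool.Agent.P.MP_1b62a1_an.Operator

/-!
Construction of the universal vector, density of its orbit and continuity of the operator.
-/

open Filter Topology Submodule Finset

namespace Pool.Agent.P.MP_1b62a1_an

variable {𝕜 : Type*} [RCLike 𝕜] {X : ℕ → Type*} [∀ n, NormedAddCommGroup (X n)]
  [∀ n, NormedSpace 𝕜 (X n)] [∀ n, CompleteSpace (X n)] (s : Sys 𝕜 X)

namespace Sys

theorem exists_vector {B : Set ℕ} (hB : B.Infinite) (y : ℕ → Π₀ n, X n)
    (hy : ∀ l, y l ∈ span 𝕜 (Set.range s.ee)) :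
    ∃ x : X 0, ∀ l, ∃ n ∈ B, ∃ r : X 0, ‖r‖ ≤ 2 * (1 / 2) ^ l ∧
      (s.T ^ n) (DFinsupp.single 0 x) = y l + DFinsupp.single 0 r := by
  set C : ℝ := ‖s.T0‖ + 1 with hC
  have hC1 : 1 ≤ C := by have := norm_nonneg s.T0; linarith
  have hδ : ∀ l k : ℕ, 0 < (1 / 2 : ℝ) ^ l / C ^ k := fun l k => by positivity
  have hstep : ∀ (l : ℕ) (p : {p : X 0 × ℕ // DFinsupp.single 0 p.1 ∈ span 𝕜 (Set.range s.ee)}),
      ∃ n ∈ B, ∃ z r : X 0, DFinsupp.single 0 z ∈ span 𝕜 (Set.range s.ee) ∧ s.V p.1.2 z ∧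
        ‖z‖ < (1 / 2 : ℝ) ^ l / C ^ p.1.2 ∧ ‖r‖ < (1 / 2 : ℝ) ^ l / C ^ p.1.2 ∧
        (s.T ^ n) (DFinsupp.single 0 p.1.1 + DFinsupp.single 0 z) = y l + DFinsupp.single 0 r :=
    fun l p => s.step hB p.2 (hy l) p.1.2 (hδ l _)
  choose nn hnn zz rr hz1 hz2 hz3 hr1 hT using hstep
  let st : ℕ → {p : X 0 × ℕ // DFinsupp.single 0 p.1 ∈ span 𝕜 (Set.range s.ee)} := fun l =>
    Nat.rec ⟨(0, 0), by simp⟩ (fun l p => ⟨(p.1.1 + zz l p, max p.1.2 (nn l p)), by
      rw [DFinsupp.single_add]; exact add_mem p.2 (hz1 l p)⟩) l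
  let z : ℕ → X 0 := fun l => zz l (st l)
  let k : ℕ → ℕ := fun l => (st l).1.2
  have hu : ∀ l, (st l).1.1 = ∑ i ∈ range l, z i := by
    intro l
    induction l with
    | zero => rfl
    | succ l ih => rw [sum_range_succ, ← ih]
  have hk : Monotone k := monotone_nat_of_le_succ fun l => le_max_left _ _
  have hnk : ∀ l i, nn l (st l) ≤ k (i + (l + 1)) := fun l i =>
    le_trans (b := k (l + 1)) (le_max_right _ _) (hk (Nat.le_add_left (l + 1) i))
  have hle : ∀ l j : ℕ, (1 / 2 : ℝ) ^ l / C ^ j ≤ (1 / 2) ^ l := fun l j =>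
    div_le_self (by positivity) (one_le_pow₀ hC1)
  have hsum : Summable z :=
    Summable.of_norm_bounded summable_geometric_two fun l => (hz3 l (st l)).le.trans (hle _ _)
  refine ⟨∑' l, z l, fun l => ⟨nn l (st l), hnn l _, rr l (st l) +
    (s.T0 ^ nn l (st l)) (∑' i, z (i + (l + 1))), ?_, ?_⟩⟩
  · have hs2 : Summable fun i => z (i + (l + 1)) := (summable_nat_add_iff (l + 1)).2 hsum
    have h1 : ‖(s.T0 ^ nn l (st l)) (∑' i, z (i + (l + 1)))‖ ≤ (1 / 2) ^ l := by
      rw [(s.T0 ^ nn l (st l)).map_tsum hs2]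
      have hg : HasSum (fun i : ℕ => (1 / 2 : ℝ) ^ (i + (l + 1))) ((1 / 2) ^ l) := by
        have := hasSum_geometric_two.mul_right ((1 / 2 : ℝ) ^ (l + 1))
        simp only [← pow_add] at this
        have e : (2 : ℝ) * (1 / 2) ^ (l + 1) = (1 / 2) ^ l := by rw [pow_succ]; ring
        rwa [e] at this
      refine tsum_of_norm_bounded hg fun i => ?_
      refine ((s.T0 ^ nn l (st l)).le_opNorm _).trans ?_
      have h2 : ‖s.T0 ^ nn l (st l)‖ ≤ C ^ k (i + (l + 1)) := by
        refine le_trans ?_ (pow_le_pow_right₀ hC1 (hnk l i))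
        generalize nn l (st l) = n
        induction n with
        | zero => rw [pow_zero, pow_zero]; exact ContinuousLinearMap.norm_id_le
        | succ n ih =>
          rw [pow_succ, pow_succ]
          exact (norm_mul_le _ _).trans
            (mul_le_mul ih (by linarith) (norm_nonneg _) (by positivity))
      have h3 := (hz3 (i + (l + 1)) (st (i + (l + 1)))).le
      have h4 : (0 : ℝ) < C ^ k (i + (l + 1)) := by positivity
      calc _ ≤ C ^ k (i + (l + 1)) * ((1 / 2 : ℝ) ^ (i + (l + 1)) / C ^ k (i + (l + 1))) :=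
            mul_le_mul h2 h3 (norm_nonneg _) h4.le
        _ = _ := by field_simp
    have h2 := (hr1 l (st l)).le.trans (hle _ _)
    exact (norm_add_le _ _).trans (by linarith)
  · have hs2 : Summable fun i => z (i + (l + 1)) := (summable_nat_add_iff (l + 1)).2 hsum
    have hV : s.V (nn l (st l)) (∑' i, z (i + (l + 1))) := by
      intro m hm
      rw [(s.φ 0 m).map_tsum hs2]
      have : (fun i => s.φ 0 m (z (i + (l + 1)))) = fun _ => 0 :=
        funext fun i => (hz2 _ _).mono (hnk l i) m hm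
      rw [this, tsum_zero]
    rw [← hsum.sum_add_tsum_nat_add (l + 1), sum_range_succ, ← hu, DFinsupp.single_add,
      DFinsupp.single_add, map_add, hT, s.T_pow_V _ _ hV, DFinsupp.single_add, add_assoc]

theorem dense_orbit [TopologicalSpace (Π₀ n, X n)] [IsTopologicalAddGroup (Π₀ n, X n)]
    [ContinuousSMul 𝕜 (Π₀ n, X n)]
    (hι : ∀ n, Continuous (fun x : X n => (DFinsupp.single n x : Π₀ n, X n)))
    {B : Set ℕ} (hB : B.Infinite) : ∃ x, Dense ((fun n => (s.T ^ n) x) '' B) := by
  obtain ⟨K, hKc, hKd⟩ := TopologicalSpace.exists_countable_dense 𝕜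
  have : Countable K := hKc.to_subtype
  let W : Submodule ℤ (Π₀ n, X n) := span ℤ (Set.range fun p : ℕ × K => (p.2 : 𝕜) • s.ee p.1)
  obtain ⟨g, hg⟩ := exists_surjective_nat W
  have hW : ∀ w ∈ W, w ∈ span 𝕜 (Set.range s.ee) := by
    intro w hw
    induction hw using span_induction with
    | mem w hw =>
      obtain ⟨p, rfl⟩ := hw
      exact smul_mem _ _ (subset_span ⟨_, rfl⟩)
    | zero => exact zero_mem _
    | add _ _ _ _ h1 h2 => exact add_mem h1 h2
    | smul c _ _ h => exact zsmul_mem h c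
  obtain ⟨x, hx⟩ := s.exists_vector hB (fun l => (g (Nat.unpair l).1 : Π₀ n, X n))
    fun l => hW _ (g _).2
  refine ⟨DFinsupp.single 0 x, ?_⟩
  set O := (fun n => (s.T ^ n) (DFinsupp.single 0 x)) '' B with hO
  choose n hn r hr hT using hx
  have h1 : (W : Set (Π₀ n, X n)) ⊆ closure O := by
    intro w hw
    obtain ⟨a, ha⟩ := hg ⟨w, hw⟩
    have hr0 : Tendsto (fun b => r (Nat.pair a b)) atTop (𝓝 0) := by
      refine squeeze_zero_norm (a := fun b => 2 * (1 / 2 : ℝ) ^ b) (fun b => (hr _).trans ?_) ?_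
      · have := pow_le_pow_of_le_one (by norm_num : (0 : ℝ) ≤ 1 / 2) (by norm_num)
          (Nat.right_le_pair a b)
        linarith
      · simpa using (tendsto_pow_atTop_nhds_zero_of_lt_one (by norm_num : (0 : ℝ) ≤ 1 / 2)
          (by norm_num)).const_mul 2
    have ht : Tendsto (fun b => w + (DFinsupp.single 0 (r (Nat.pair a b)) : Π₀ n, X n)) atTop
        (𝓝 w) := by
      simpa using (((hι 0).tendsto 0).comp hr0).const_add w
    refine mem_closure_of_tendsto ht (Eventually.of_forall fun b => ⟨n (Nat.pair a b), hn _, ?_⟩)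
    simp only [hT, Nat.unpair_pair, ha]
  have h2 : ∀ u ∈ span 𝕜 (Set.range s.ee), u ∈ W.toAddSubgroup.topologicalClosure := by
    intro u hu
    obtain ⟨c, rfl⟩ := Finsupp.mem_span_range_iff_exists_finsupp.1 hu
    refine sum_mem fun m _ => ?_
    have hc : Continuous fun a : 𝕜 => a • s.ee m := continuous_id.smul continuous_const
    exact map_mem_closure (f := fun a : 𝕜 => a • s.ee m) hc (hKd (c m)) fun a ha => subset_span ⟨(m, ⟨a, ha⟩), rfl⟩
  have h3 : ∀ v, v ∈ W.toAddSubgroup.topologicalClosure := by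
    intro v
    induction v using DFinsupp.induction with
    | h0 => exact zero_mem _
    | ha i b f _ _ ih =>
      refine add_mem ?_ ih
      have hcl : IsClosed (W.toAddSubgroup.topologicalClosure : Set (Π₀ n, X n)) :=
        AddSubgroup.isClosed_topologicalClosure _
      rw [← SetLike.mem_coe, ← hcl.closure_eq]
      refine map_mem_closure (hι i) (s.dense i b) fun a ha => h2 _ ?_
      induction ha using span_induction with
      | mem w hw =>
        obtain ⟨m, rfl⟩ := hw
        by_cases hm : lev m = i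
        · rw [s.single_a hm]; exact subset_span ⟨_, rfl⟩
        · rw [s.a_zero i m hm]; simp
      | zero => simp
      | add _ _ _ _ h1 h2 => rw [DFinsupp.single_add]; exact add_mem h1 h2
      | smul c _ _ h => rw [DFinsupp.single_smul]; exact smul_mem _ _ h
  intro v
  exact closure_minimal h1 isClosed_closure (h3 v)

omit [∀ n, CompleteSpace (X n)] in
theorem continuous_T_single [TopologicalSpace (Π₀ n, X n)] [IsTopologicalAddGroup (Π₀ n, X n)]
    (hι : ∀ n, Continuous (fun x : X n => (DFinsupp.single n x : Π₀ n, X n))) (j : ℕ) :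
    Continuous fun x : X j => s.T (DFinsupp.single j x) := by
  simp only [T, LinearMap.add_apply, Module.End.one_apply, S_single]
  exact (hι j).add (continuous_finsetSum _ fun i _ => (hι i).comp (s.blk j i).continuous)

end Sys

end Pool.Agent.P.MP_1b62a1_an
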