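import Pool.Agent.P.MP_1b62a1_an.System
import Pool.Agent.P.MP_1b62a1_an.Jordan

/-!
The operator identity plus backward shift on the algebraic direct sum.
-/

open Filter Topology Submodule Finset

namespace Pool.Agent.P.MP_1b62a1_an

variable {𝕜 : Type*} [RCLike 𝕜] {X : ℕ → Type*} [∀ n, NormedAddCommGroup (X n)]
  [∀ n, NormedSpace 𝕜 (X n)] [∀ n, CompleteSpace (X n)] (s : Sys 𝕜 X)

namespace Sys

/-- The block of the shift from summand `j` to summand `i`. -/
noncomputable def blk (j i : ℕ) : X j →L[𝕜] X i :=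
  ∑' m, (s.φ j (m + 1)).smulRight (s.a i m)

theorem hasSum_blk (j i : ℕ) (x : X j) :
    HasSum (fun m => s.φ j (m + 1) x • s.a i m) (s.blk j i x) := by
  have hs : Summable fun m => (s.φ j (m + 1)).smulRight (s.a i m) := by
    refine Summable.of_norm_bounded summable_geometric_two fun m => ?_
    rw [ContinuousLinearMap.norm_smulRight_apply]
    exact s.bound i j m
  exact (ContinuousLinearMap.apply 𝕜 (X i) x).hasSum hs.hasSum

theorem blk_eq_zero {j i : ℕ} {x : X j} (h : ∀ m, lev m = i → s.φ j (m + 1) x = 0) :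
    s.blk j i x = 0 := by
  refine (s.hasSum_blk j i x).unique ?_
  have : (fun m => s.φ j (m + 1) x • s.a i m) = fun _ => 0 := by
    funext m
    by_cases hm : lev m = i
    · rw [h m hm, zero_smul]
    · rw [s.a_zero i m hm, smul_zero]
  rw [this]
  exact hasSum_zero

/-- The shift. -/
noncomputable def S : (Π₀ n, X n) →ₗ[𝕜] (Π₀ n, X n) :=
  DFinsupp.lsum ℕ fun j => ∑ i ∈ range (j + 2),
    (DFinsupp.lsingle i : X i →ₗ[𝕜] Π₀ n, X n) ∘ₗ (s.blk j i : X j →ₗ[𝕜] X i)

omit [∀ n, CompleteSpace (X n)] in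
theorem S_single (j : ℕ) (x : X j) :
    s.S (DFinsupp.single j x) = ∑ i ∈ range (j + 2), DFinsupp.single i (s.blk j i x) := by
  simp [S, LinearMap.sum_apply]

theorem S_single_apply (j : ℕ) (x : X j) (i : ℕ) : s.S (DFinsupp.single j x) i = s.blk j i x := by
  rw [S_single, DFinsupp.finsetSum_apply]
  by_cases hi : i < j + 2
  · rw [sum_eq_single i]
    · simp
    · intro b _ hb
      exact DFinsupp.single_eq_of_ne (Ne.symm hb)
    · intro h
      exact absurd (mem_range.2 hi) h
  · rw [sum_eq_zero, s.blk_eq_zero]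
    · intro m hm
      have := lev_step m
      rw [s.φ_zero j (m + 1) (by omega)]
      rfl
    · intro b hb
      have := mem_range.1 hb
      exact DFinsupp.single_eq_of_ne (by omega)

/-- The operator. -/
noncomputable def T : Module.End 𝕜 (Π₀ n, X n) := 1 + s.S

/-- The basis vectors in the direct sum. -/
noncomputable def ee (m : ℕ) : Π₀ n, X n := DFinsupp.single (lev m) (s.a (lev m) m)

omit [∀ n, CompleteSpace (X n)] in
theorem ee_apply (m i : ℕ) : s.ee m i = s.a i m := by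
  by_cases h : lev m = i
  · subst h; simp [ee]
  · rw [s.a_zero i m h]
    exact DFinsupp.single_eq_of_ne (Ne.symm h)

omit [∀ n, CompleteSpace (X n)] in
theorem single_a {m i : ℕ} (h : lev m = i) : DFinsupp.single i (s.a i m) = s.ee m := by
  subst h; rfl

theorem S_ee_zero : s.S (s.ee 0) = 0 := by
  ext i
  rw [ee, S_single_apply, s.blk_eq_zero]
  · rfl
  · intro m _
    rw [s.orth]; simp

theorem S_ee_succ (m : ℕ) : s.S (s.ee (m + 1)) = s.ee m := by
  ext i
  rw [ee, S_single_apply, ee_apply]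
  refine (s.hasSum_blk _ i _).unique ?_
  have := hasSum_single (f := fun k => s.φ (lev (m + 1)) (k + 1) (s.a (lev (m + 1)) (m + 1)) •
    s.a i k) m (fun k hk => by rw [s.orth]; simp [hk])
  simpa [s.orth] using this

theorem T_pow_ee (n : ℕ) : ∀ m M, m < M → (s.T ^ n) (s.ee m) = ∑ i ∈ range M, cc 𝕜 n m i • s.ee i := by
  induction n with
  | zero =>
    intro m M hm
    rw [pow_zero, Module.End.one_apply, sum_eq_single m]
    · simp [cc]
    · intro b _ hb
      unfold cc
      split_ifs with h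
      · rw [Nat.choose_eq_zero_of_lt (by omega)]; simp
      · simp
    · intro h; exact absurd (mem_range.2 hm) h
  | succ n ih =>
    intro m M hm
    rw [pow_succ, Module.End.mul_apply, T, LinearMap.add_apply, Module.End.one_apply, map_add, ← T]
    rcases m with _ | m
    · rw [S_ee_zero, map_zero, add_zero, ih 0 M hm]
      refine sum_congr rfl fun i _ => ?_
      simp [cc]
    · rw [S_ee_succ, ih _ M hm, ih m M (by omega), ← sum_add_distrib]
      refine sum_congr rfl fun i _ => ?_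
      rw [← add_smul]
      congr 1
      unfold cc
      rcases lt_trichotomy i (m + 1) with h | rfl | h
      · rw [if_pos h.le, if_pos (by omega), if_pos h.le, show m + 1 - i = (m - i) + 1 by omega,
          Nat.choose_succ_succ]
        push_cast; ring
      · simp
      · rw [if_neg (by omega), if_neg (by omega), if_neg (by omega), add_zero]

/-- Positions whose `n` predecessors all lie in the summand `0`. -/
def Good (n m : ℕ) : Prop := n ≤ m ∧ ∀ k ≤ n, lev (m - k) = 0

/-- Vectors of the summand `0` supported on good positions. -/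
def V (n : ℕ) (v : X 0) : Prop := ∀ m, ¬ Good n m → s.φ 0 m v = 0

omit [∀ n, CompleteSpace (X n)] in
theorem V.mono {s : Sys 𝕜 X} {n k : ℕ} (h : n ≤ k) {v : X 0} (hv : s.V k v) : s.V n v :=
  fun m hm => hv m fun hg => hm ⟨h.trans hg.1, fun l hl => hg.2 l (hl.trans h)⟩

/-- The operator on the summand `0`. -/
noncomputable def T0 : X 0 →L[𝕜] X 0 := 1 + s.blk 0 0

theorem V_step {n : ℕ} {v : X 0} (hv : s.V (n + 1) v) :
    s.T (DFinsupp.single 0 v) = DFinsupp.single 0 (s.T0 v) ∧ s.V n (s.T0 v) := by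
  constructor
  · rw [T, T0, LinearMap.add_apply, add_apply, DFinsupp.single_add]
    congr 1
    ext i
    rw [S_single_apply]
    by_cases hi : i = 0
    · subst hi; simp
    · rw [DFinsupp.single_eq_of_ne hi]
      refine s.blk_eq_zero fun m hm => hv _ fun hg => hi ?_
      have := hg.2 1 (by omega)
      rw [← hm]; simpa using this
  · intro m hm
    rw [T0, add_apply, map_add, ContinuousLinearMap.one_def, ContinuousLinearMap.id_apply,
      hv.mono (Nat.le_succ n) m hm, zero_add]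
    refine ((s.φ 0 m).hasSum (s.hasSum_blk 0 0 v)).unique ?_
    have : (fun k => s.φ 0 m (s.φ 0 (k + 1) v • s.a 0 k)) = fun _ => 0 := by
      funext k
      rw [map_smul, s.orth]
      by_cases hk : m = k
      · subst hk
        rw [hv (m + 1), zero_smul]
        intro hg
        refine hm ⟨by have := hg.1; omega, fun l hl => ?_⟩
        have := hg.2 (l + 1) (by omega)
        simpa using this
      · simp [hk]
    rw [this]
    exact hasSum_zero

theorem T_pow_V (n : ℕ) : ∀ v : X 0, s.V n v →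
    (s.T ^ n) (DFinsupp.single 0 v) = DFinsupp.single 0 ((s.T0 ^ n) v) := by
  induction n with
  | zero => intro v _; simp
  | succ n ih =>
    intro v hv
    obtain ⟨h1, h2⟩ := s.V_step hv
    rw [pow_succ, Module.End.mul_apply, h1, ih _ h2, pow_succ]
    rfl

omit [∀ n, CompleteSpace (X n)] in
theorem exists_coord {u : Π₀ n, X n} (hu : u ∈ span 𝕜 (Set.range s.ee)) :
    ∃ K, ∀ N, K ≤ N → ∃ υ : Fin N → 𝕜, u = ∑ j, υ j • s.ee j := by
  obtain ⟨c, rfl⟩ := Finsupp.mem_span_range_iff_exists_finsupp.1 hu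
  refine ⟨c.support.sup id + 1, fun N hN => ⟨fun j => c j, ?_⟩⟩
  rw [Fin.sum_univ_eq_sum_range (fun j => c j • s.ee j)]
  refine Finsupp.sum_of_support_subset _ (fun i hi => ?_) _ (fun i _ => zero_smul _ _)
  have : id i ≤ c.support.sup id := le_sup hi
  exact mem_range.2 (by simp only [id] at this; omega)

omit [∀ n, CompleteSpace (X n)] in
theorem norm_comb_lt {N : ℕ} (w : Fin N → X 0) {δ : ℝ} (hδ : 0 < δ) (ζ : Fin N → 𝕜)
    (h : ∀ j, ‖ζ j‖ < δ / (∑ j, ‖w j‖ + 1)) : ‖∑ j, ζ j • w j‖ < δ := by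
  have h0 : 0 ≤ ∑ j, ‖w j‖ := sum_nonneg fun _ _ => norm_nonneg _
  calc ‖∑ j, ζ j • w j‖ ≤ ∑ j, δ / (∑ j, ‖w j‖ + 1) * ‖w j‖ := by
        refine norm_sum_le_of_le _ fun j _ => ?_
        rw [norm_smul]
        exact mul_le_mul_of_nonneg_right (h j).le (norm_nonneg _)
    _ = δ / (∑ j, ‖w j‖ + 1) * ∑ j, ‖w j‖ := by rw [mul_sum]
    _ < δ := by
        rw [div_mul_eq_mul_div, div_lt_iff₀ (by linarith)]
        nlinarith

theorem step {B : Set ℕ} (hB : B.Infinite) {u y : Π₀ n, X n} (hu : u ∈ span 𝕜 (Set.range s.ee))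
    (hy : y ∈ span 𝕜 (Set.range s.ee)) (k : ℕ) {δ : ℝ} (hδ : 0 < δ) :
    ∃ n ∈ B, ∃ z r : X 0, DFinsupp.single 0 z ∈ span 𝕜 (Set.range s.ee) ∧ s.V k z ∧ ‖z‖ < δ ∧
      ‖r‖ < δ ∧ (s.T ^ n) (u + DFinsupp.single 0 z) = y + DFinsupp.single 0 r := by
  obtain ⟨K1, h1⟩ := s.exists_coord hu
  obtain ⟨K2, h2⟩ := s.exists_coord hy
  obtain ⟨N, hN1, hN2, hN⟩ := lev_window k (K1 + K2)
  obtain ⟨υ, rfl⟩ := h1 N (by omega)
  obtain ⟨η, rfl⟩ := h2 N (by omega)
  have h0 : 0 ≤ ∑ j : Fin N, ‖s.a 0 (N + j)‖ := sum_nonneg fun _ _ => norm_nonneg _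
  obtain ⟨n, hn, ζ, e1, e2, e3⟩ := ((Nat.frequently_atTop_iff_infinite.2 hB).and_eventually
    (jordan N υ η (ε := δ / (∑ j : Fin N, ‖s.a 0 (N + j)‖ + 1)) (by positivity))).exists
  have hsing : ∀ ξ : Fin N → 𝕜, DFinsupp.single 0 (∑ j : Fin N, ξ j • s.a 0 (N + j)) =
      ∑ j : Fin N, ξ j • s.ee (N + j) := by
    intro ξ
    rw [← DFinsupp.lsingle_apply (R := 𝕜), map_sum]
    refine sum_congr rfl fun j _ => ?_
    rw [map_smul, DFinsupp.lsingle_apply, s.single_a (hN _ (by omega) (by omega))]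
  refine ⟨n, hn, ∑ j : Fin N, ζ j • s.a 0 (N + j),
    ∑ i : Fin N, (∑ j : Fin N, cc 𝕜 n j i * ζ j) • s.a 0 (N + i), ?_, fun m hm => ?_,
    norm_comb_lt _ hδ _ e2, norm_comb_lt _ hδ _ e3, ?_⟩
  · rw [hsing]
    exact sum_mem fun j _ => smul_mem _ _ (subset_span ⟨_, rfl⟩)
  · rw [map_sum]
    refine sum_eq_zero fun j _ => ?_
    rw [map_smul, s.orth, if_neg, smul_zero]
    rintro ⟨rfl, -⟩
    exact hm ⟨by omega, fun l hl => hN _ (by omega) (by omega)⟩
  · have hT : ∀ m, m < N + N → (s.T ^ n) (s.ee m) =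
        ∑ i : Fin N, cc 𝕜 n m i • s.ee i + ∑ i : Fin N, cc 𝕜 n m (N + i) • s.ee (N + i) := by
      intro m hm
      rw [s.T_pow_ee n m _ hm, sum_range_add,
        Fin.sum_univ_eq_sum_range (fun i => cc 𝕜 n m i • s.ee i),
        Fin.sum_univ_eq_sum_range (fun i => cc 𝕜 n m (N + i) • s.ee (N + i))]
    have c1 : ∀ i j : Fin N, cc 𝕜 n j (N + i) = 0 := fun i j => if_neg (by omega)
    have c2 : ∀ i j : Fin N, cc 𝕜 n (N + j) (N + i) = cc 𝕜 n j i := fun i j => by
      simp [cc, Nat.add_sub_add_left]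
    have a1 : (s.T ^ n) (∑ j : Fin N, υ j • s.ee j) =
        ∑ i : Fin N, (∑ j : Fin N, cc 𝕜 n j i * υ j) • s.ee i := by
      rw [map_sum]
      simp only [map_smul, sum_smul]
      rw [sum_comm]
      refine sum_congr rfl fun j _ => ?_
      rw [hT j (by omega)]
      simp only [c1, zero_smul, sum_const_zero, add_zero, smul_sum, smul_smul, mul_comm]
    have a2 : (s.T ^ n) (∑ j : Fin N, ζ j • s.ee (N + j)) =
        ∑ i : Fin N, (∑ j : Fin N, cc 𝕜 n (N + j) i * ζ j) • s.ee i +
        ∑ i : Fin N, (∑ j : Fin N, cc 𝕜 n j i * ζ j) • s.ee (N + i) := by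
      rw [map_sum]
      simp only [map_smul, sum_smul]
      rw [sum_comm, sum_comm (f := fun (i j : Fin N) => (cc 𝕜 n j i * ζ j) • s.ee (N + i)),
        ← sum_add_distrib]
      refine sum_congr rfl fun j _ => ?_
      rw [hT (N + j) (by omega)]
      simp only [c2, smul_add, smul_sum, smul_smul, mul_comm]
    rw [hsing, hsing, map_add, a1, a2, ← add_assoc, ← sum_add_distrib]
    congr 1
    refine sum_congr rfl fun i _ => ?_
    rw [← add_smul, add_comm, e1]

end Sys

end Pool.Agent.P.MP_1b62a1_an
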