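import Pool.Agent.P.MP_1b62a1_an.Biorth

/-!
A biorthogonal system spread over all summands, enumerated along one sequence of positions.
-/

open Filter Topology Submodule

namespace Pool.Agent.P.MP_1b62a1_an

/-- The summand to which a position belongs. -/
def lev (m : ℕ) : ℕ := Nat.log 4 m - (m - 4 ^ Nat.log 4 m)

theorem lev_eq {i m : ℕ} (h1 : 4 ^ i ≤ m) (h2 : m < 4 ^ (i + 1)) : lev m = i - (m - 4 ^ i) := by
  have : Nat.log 4 m = i := Nat.log_eq_of_pow_le_of_lt_pow h1 h2
  rw [lev, this]

theorem lt_four_pow (i : ℕ) : i < 4 ^ i := Nat.lt_pow_self (by norm_num)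

theorem lev_step (m : ℕ) : lev m ≤ lev (m + 1) + 1 := by
  rcases Nat.eq_zero_or_pos m with rfl | hm
  · simp [lev]
  have h1 : 4 ^ Nat.log 4 m ≤ m := Nat.pow_log_le_self 4 hm.ne'
  have h2 : m < 4 ^ (Nat.log 4 m + 1) := Nat.lt_pow_succ_log_self (by norm_num) m
  generalize Nat.log 4 m = i at h1 h2
  rw [lev_eq h1 h2]
  have h3 := lt_four_pow i
  rcases lt_or_ge (m + 1) (4 ^ (i + 1)) with h | h
  · rw [lev_eq (h1.trans (Nat.le_succ m)) h]; omega
  · rw [pow_succ] at h; omega

theorem lev_infinite (j : ℕ) : {m | lev m = j}.Infinite := by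
  refine Set.infinite_of_forall_exists_gt fun k => ⟨4 ^ (j + k) + k, ?_, ?_⟩
  · have h3 := lt_four_pow (j + k)
    change lev _ = j
    rw [lev_eq (i := j + k) (by omega) (by rw [pow_succ]; omega)]
    omega
  · have h3 := lt_four_pow (j + k)
    omega

theorem lev_window (n k : ℕ) : ∃ N, k ≤ N ∧ n ≤ N ∧ ∀ m, N - n ≤ m → m < 2 * N → lev m = 0 := by
  have h3 := lt_four_pow (n + k)
  have h4 : 2 * (n + k) ≤ 4 ^ (n + k) := by
    have : 4 ^ (n + k) = 2 ^ (n + k) * 2 ^ (n + k) := by rw [← mul_pow]; norm_num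
    have h5 : n + k < 2 ^ (n + k) := Nat.lt_two_pow_self
    rcases Nat.eq_zero_or_pos (n + k) with h | h
    · omega
    · rw [this]; nlinarith
  refine ⟨2 * 4 ^ (n + k), by omega, by omega, fun m h1 h2 => ?_⟩
  rw [lev_eq (i := n + k) (by omega) (by rw [pow_succ]; omega)]
  omega

variable (𝕜 : Type*) [RCLike 𝕜] (X : ℕ → Type*) [∀ n, NormedAddCommGroup (X n)]
  [∀ n, NormedSpace 𝕜 (X n)]

/-- The data used to build the operator. -/
structure Sys where
  /-- The vectors. -/
  a : ∀ i, ℕ → X i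
  /-- The functionals. -/
  φ : ∀ i, ℕ → X i →L[𝕜] 𝕜
  orth : ∀ i m m', φ i m (a i m') = if m = m' ∧ lev m = i then 1 else 0
  a_zero : ∀ i m, lev m ≠ i → a i m = 0
  bound : ∀ i j m, ‖φ j (m + 1)‖ * ‖a i m‖ ≤ (1 / 2) ^ m
  φ_zero : ∀ i m, lev m ≠ i → φ i m = 0
  dense : ∀ i, Dense (span 𝕜 (Set.range (a i)) : Set (X i))

theorem exists_sys [∀ n, TopologicalSpace.SeparableSpace (X n)]
    (h : ∀ n, ¬ FiniteDimensional 𝕜 (X n)) : Nonempty (Sys 𝕜 X) := by
  classical
  choose e f hef hd using fun n => exists_biorth (h n)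
  let idx : ℕ → ℕ := fun m => Nat.count (fun k => lev k = lev m) m
  let c : ℕ → ℝ := fun m => Nat.rec (motive := fun _ => ℝ) 1 (fun k ck => ck * (2 ^ k *
    ((‖f (lev (k + 1)) (idx (k + 1))‖ + 1) * (‖e (lev k) (idx k)‖ + 1)))) m
  have hc : ∀ m, 0 < c m := by
    intro m
    induction m with
    | zero => exact one_pos
    | succ m ih =>
      change 0 < c m * _
      positivity
  have hc' : ∀ m, (RCLike.ofReal (c m) : 𝕜) ≠ 0 := fun m => RCLike.ofReal_ne_zero.2 (hc m).ne'
  refine ⟨⟨fun i m => if lev m = i then (RCLike.ofReal (c m) : 𝕜) • e i (idx m) else 0,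
    fun i m => if lev m = i then (RCLike.ofReal (c m) : 𝕜)⁻¹ • f i (idx m) else 0, ?_,
    fun i m hm => if_neg hm, ?_, fun i m hm => if_neg hm, fun i => (hd i).mono (span_le.2 ?_)⟩⟩
  · intro i m m'
    by_cases h1 : lev m = i
    · by_cases h2 : lev m' = i
      · simp only [h1, h2, if_true, smul_apply, map_smul, hef, smul_eq_mul, and_true]
        by_cases h3 : m = m'
        · subst h3
          simp [hc' m]
        · rw [if_neg h3, if_neg, mul_zero, mul_zero]
          intro h4
          apply h3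
          simp only [idx, h1, h2] at h4
          exact Nat.count_injective (p := fun k => lev k = i) h1 h2 h4
      · have : m ≠ m' := fun h => h2 (h ▸ h1)
        simp [h2, this]
    · simp [h1]
  · intro i j m
    by_cases h1 : lev (m + 1) = j
    · by_cases h2 : lev m = i
      · subst h1 h2
        simp only [if_true, norm_smul, norm_inv, RCLike.norm_ofReal, abs_of_pos (hc _)]
        have e1 : c (m + 1) = c m * (2 ^ m *
          ((‖f (lev (m + 1)) (idx (m + 1))‖ + 1) * (‖e (lev m) (idx m)‖ + 1))) := rfl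
        rw [e1]
        have := hc m
        have h3 := norm_nonneg (f (lev (m + 1)) (idx (m + 1)))
        have h4 := norm_nonneg (e (lev m) (idx m))
        generalize ‖f (lev (m + 1)) (idx (m + 1))‖ = p at *
        generalize ‖e (lev m) (idx m)‖ = q at *
        rw [one_div, inv_pow]
        field_simp
        nlinarith
      · simp [h2]
    · simp [h1]
  · rintro _ ⟨k, rfl⟩
    have h1 : lev (Nat.nth (fun m => lev m = i) k) = i := Nat.nth_mem_of_infinite (lev_infinite i) k
    have h2 : idx (Nat.nth (fun m => lev m = i) k) = k := by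
      simp only [idx, h1]
      exact Nat.count_nth_of_infinite (lev_infinite i) k
    have h3 : e i k = (RCLike.ofReal (c (Nat.nth (fun m => lev m = i) k)) : 𝕜)⁻¹ •
        (fun m => if lev m = i then (RCLike.ofReal (c m) : 𝕜) • e i (idx m) else 0)
          (Nat.nth (fun m => lev m = i) k) := by
      simp only [h1, if_true, h2]
      rw [smul_smul, inv_mul_cancel₀ (hc' _), one_smul]
    rw [h3]
    exact smul_mem _ _ (subset_span ⟨_, rfl⟩)

end Pool.Agent.P.MP_1b62a1_an
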